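import Mathlib
import Pool.Agent.H753R2.FR.T_D6b

/-!
# The supremum of the real flow roots is finite

There is a real `d` such that no bridgeless multigraph has a real flow root greater than `d`.
-/

set_option autoImplicit false

namespace Pool.Agent.Results.MP_08beec_co.DStarFinite

/-- There is a real number `d` such that `F(G, q) > 0`, in particular `F(G, q) ≠ 0`, for every finite
multigraph `G` (loops and parallel edges allowed) without bridges and every real `q > d`. -/
theorem result :
    ∃ d : ℝ, ∀ (n m : ℕ) (ends : Fin m → Fin n × Fin n),
    (∀ e : Fin m,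
      Nat.card (SimpleGraph.fromRel
          (fun u v : Fin n => ∃ f ∈ (Finset.univ : Finset (Fin m)).erase e, ends f = (u, v))).ConnectedComponent
        = Nat.card (SimpleGraph.fromRel
          (fun u v : Fin n => ∃ f : Fin m, ends f = (u, v))).ConnectedComponent) →
    ∀ q : ℝ, d < q →
      0 < ∑ A ∈ (Finset.univ : Finset (Fin m)).powerset,
        (-1 : ℝ) ^ (m - A.card) *
          q ^ (A.card + Nat.card (SimpleGraph.fromRel
                (fun u v : Fin n => ∃ f ∈ A, ends f = (u, v))).ConnectedComponent - n) := by
  obtain ⟨C, h⟩ := Pool.Agent.H753R2.FR.D6b.flow_pos_ends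
  exact ⟨C, fun n m ends hb q hq => h n m ends hb q hq.le⟩

end Pool.Agent.Results.MP_08beec_co.DStarFinite
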