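import Mathlib
import Pool.Agent.H140R2.FR.CombFinal

/-!
# Real flow roots of bridgeless graphs are dense in `[4, 4 + 2√2]`
-/

set_option autoImplicit false

open Finset Polynomial

namespace Pool.Agent.Results.MP_08beec_co.DenseFlowRoots

open Pool.Agent.H140R2.FR

theorem result (a b : ℝ) (ha : 4 ≤ a) (hab : a < b) (hb : b ≤ 4 + 2 * Real.sqrt 2) :
    ∃ (V E : Type) (_ : Fintype V) (_ : Fintype E) (ends : E → Sym2 V),
      (∀ e : E, Nat.card (SimpleGraph.fromEdgeSet (ends '' {e}ᶜ)).ConnectedComponent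
        = Nat.card (SimpleGraph.fromEdgeSet (ends '' Set.univ)).ConnectedComponent) ∧
      ∃ q : ℝ, a < q ∧ q < b ∧
        ∑ A ∈ (univ : Finset E).powerset, (-1 : ℝ) ^ (Fintype.card E - A.card) *
          q ^ (A.card + Nat.card (SimpleGraph.fromEdgeSet (ends '' (A : Set E))).ConnectedComponent
            - Fintype.card V) = 0 := by
  obtain ⟨V, iV, E, iE, ends, hbr, q, h1, h2, h3⟩ := flow_roots_dense a b ha hab hb
  refine ⟨V, E, iV, iE, ends, hbr, q, h1, h2, ?_⟩
  rw [← h3, flowPoly, map_sum]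
  refine Finset.sum_congr rfl fun A _ => ?_
  rw [map_mul, aeval_C, map_pow, map_pow, aeval_X, kc]
  simp

end Pool.Agent.Results.MP_08beec_co.DenseFlowRoots
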